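import Pool.Agent.Work.MP_275abe_gt.Main
import Pool.Agent.Work.MP_275abe_gt.Tor

/-!
Almost every geodesic of a closed orientable surface of genus at least 2 with curvature `≤ 0` meets
the set of points of negative curvature.
-/

namespace Pool.Agent.Results.MP_275abe_gt.RunsIntoNegative

open MeasureTheory Pool.Agent.Work.MP_275abe_gt

theorem result (G : Met) (Γ : Subgroup (Equiv.Perm Pt)) (hΓ : IsClosedSurf G Γ)
    (hgen : ∃ f ∈ Γ, ∃ g ∈ Γ, f * g ≠ g * f) (hK : ∀ x, curv G x ≤ 0) :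
    ∀ᵐ v ∂(liouville G), ∃ γ : ℝ → Pt, IsGeod G γ ∧ γ 0 = v.1 ∧ deriv γ 0 = v.2 ∧
      ∃ t, curv G (γ t) < 0 :=
  main hΓ hK (tor_neg hΓ hK hgen)

end Pool.Agent.Results.MP_275abe_gt.RunsIntoNegative
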